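import Pool.Agent.H64.EP.Targets

set_option autoImplicit false

open Finset
open scoped Classical

namespace Pool.Agent.H64.EP

theorem final (hM : T_MAIN) (c : ℝ) (hc : 0 < c) (N : ℕ) :
    ∃ n : ℕ, N ≤ n ∧ 2 ≤ n ∧ ∃ G : SimpleGraph (Fin n), G.CliqueFree 3 ∧
      ∀ A B : Finset (Fin n), c * n ≤ A.card → (n : ℝ) ^ c ≤ B.card →
        ∃ a ∈ A, ∃ b ∈ B, G.Adj a b := by
  obtain ⟨s, hs⟩ := exists_nat_gt (1 / c)
  have hspos : (0 : ℝ) < s := lt_trans (by positivity) hs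
  have hs1 : 1 ≤ s := by
    have : 0 < s := by exact_mod_cast hspos
    omega
  have hsc : (1 : ℝ) / s ≤ c := by
    rw [div_le_iff₀ hspos]
    rw [div_lt_iff₀ hc] at hs
    linarith
  obtain ⟨n, hN, hn2, G, htf, hG⟩ := hM s hs1 N
  refine ⟨n, hN, hn2, G, ?_, ?_⟩
  · intro S hS
    rw [SimpleGraph.is3Clique_iff] at hS
    obtain ⟨x, y, z, hxy, hxz, hyz, -⟩ := hS
    exact htf x y z hxy hyz hxz
  · intro A B hA hB
    have hn1 : (1 : ℝ) ≤ n := by
      have : 1 ≤ n := by omega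
      exact_mod_cast this
    refine hG A B ?_ ?_
    · calc (n : ℝ) / s = (1 / s) * n := by ring
        _ ≤ c * n := mul_le_mul_of_nonneg_right hsc (by positivity)
        _ ≤ A.card := hA
    · exact le_trans (Real.rpow_le_rpow_of_exponent_le hn1 hsc) hB

end Pool.Agent.H64.EP
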