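import Pool.Agent.H64.EP.Targets

set_option autoImplicit false

open Finset
open scoped Classical

namespace Pool.Agent.H64.EP

namespace NUM

theorem ev (C R : ℕ) (hR : 2 ≤ R) : ∃ k₀ : ℕ, ∀ k : ℕ, k₀ ≤ k → C * k ^ 5 ≤ R ^ k := by
  have hR1 : (1 : ℝ) < R := by exact_mod_cast hR
  have h := tendsto_pow_const_div_const_pow_of_one_lt 5 hR1
  have h2 : ∀ᶠ k : ℕ in Filter.atTop, ((k : ℝ) ^ 5 / (R : ℝ) ^ k) < 1 / (C + 1) :=
    h.eventually (gt_mem_nhds (by positivity))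
  obtain ⟨k₀, hk₀⟩ := Filter.eventually_atTop.1 h2
  refine ⟨k₀, fun k hk => ?_⟩
  have h3 := hk₀ k hk
  have hRk : (0 : ℝ) < (R : ℝ) ^ k := by positivity
  rw [div_lt_div_iff₀ hRk (by positivity), one_mul] at h3
  have h4 : (C : ℝ) * (k : ℝ) ^ 5 ≤ (R : ℝ) ^ k := by
    have : (0 : ℝ) ≤ (k : ℝ) ^ 5 := by positivity
    nlinarith
  exact_mod_cast h4

theorem exists_r (s : ℕ) (hs : 1 ≤ s) : ∃ r : ℕ, 1 ≤ r ∧
    16 * s * 16 ^ s * (1 + 5 * s * Real.log ((2 * r + 1 : ℕ) : ℝ)) ≤ (r : ℝ) := by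
  set T : ℕ := 16 * s * 16 ^ s * (1 + 10 * s) with hT
  have hT1 : 1 ≤ T := by
    have : 0 < T := by rw [hT]; positivity
    omega
  refine ⟨T ^ 2, Nat.one_le_pow _ _ hT1, ?_⟩
  have hTr : (1 : ℝ) ≤ T := by exact_mod_cast hT1
  have hlog : Real.log ((2 * T ^ 2 + 1 : ℕ) : ℝ) ≤ 2 * T := by
    rw [Real.log_le_iff_le_exp (by positivity)]
    have h1 := Real.quadratic_le_exp_of_nonneg (x := 2 * (T : ℝ)) (by positivity)
    push_cast
    nlinarith
  have hs0 : (0 : ℝ) < s := by exact_mod_cast hs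
  have h2 : 1 + 5 * (s : ℝ) * Real.log ((2 * T ^ 2 + 1 : ℕ) : ℝ) ≤ (1 + 10 * s) * T := by
    have : 5 * (s : ℝ) * Real.log ((2 * T ^ 2 + 1 : ℕ) : ℝ) ≤ 5 * s * (2 * T) :=
      mul_le_mul_of_nonneg_left hlog (by positivity)
    nlinarith
  calc 16 * (s : ℝ) * 16 ^ s * (1 + 5 * s * Real.log ((2 * T ^ 2 + 1 : ℕ) : ℝ))
      ≤ 16 * (s : ℝ) * 16 ^ s * ((1 + 10 * s) * T) :=
        mul_le_mul_of_nonneg_left h2 (by positivity)
    _ = (T : ℝ) * T := by
        rw [hT]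
        push_cast
        ring
    _ = ((T ^ 2 : ℕ) : ℝ) := by
        push_cast
        ring

theorem card_bound (k r : ℕ) (hr : 1 ≤ r) (hk : 1 ≤ k) :
    k * Fintype.card (Dat k (2 * r * k) (2 * r + 1)) ≤ 2 ^ (4 * (2 * r + 1) ^ 2 * k ^ 3) := by
  set L := 2 * r * k with hL
  set R := 2 * r + 1 with hR
  have hsym : Fintype.card (Sym2 (Fin k)) ≤ k ^ 2 := by
    have hsurj : Function.Surjective (fun p : Fin k × Fin k => s(p.1, p.2)) := by
      intro e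
      induction e using Sym2.ind with
      | _ a b => exact ⟨(a, b), rfl⟩
    have := Fintype.card_le_of_surjective _ hsurj
    simp only [Fintype.card_prod, Fintype.card_fin] at this
    nlinarith
  have hW : Fintype.card (W L R) = L * R * R ^ L := by
    simp [Fintype.card_prod, Fintype.card_pi, Fintype.card_fin]
  have hW2 : Fintype.card (W L R) ≤ 2 ^ (L + R + R * L) := by
    have h0 : (2 : ℕ) ^ (L + R + R * L) = 2 ^ L * 2 ^ R * (2 ^ R) ^ L := by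
      rw [← pow_mul, ← pow_add, ← pow_add]
    rw [hW, h0]
    have h1 : L ≤ 2 ^ L := Nat.lt_two_pow_self.le
    have h2 : R ≤ 2 ^ R := Nat.lt_two_pow_self.le
    exact Nat.mul_le_mul (Nat.mul_le_mul h1 h2) (Nat.pow_le_pow_left h2 L)
  have hD : Fintype.card (Dat k L R) ≤ 2 ^ ((L + R + R * L) * k ^ 2) := by
    have h3 : Fintype.card (Dat k L R) = (Fintype.card (W L R)) ^ Fintype.card (Sym2 (Fin k)) := by
      rw [Fintype.card_fun]
    rw [h3, pow_mul]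
    calc (Fintype.card (W L R)) ^ Fintype.card (Sym2 (Fin k))
        ≤ (2 ^ (L + R + R * L)) ^ Fintype.card (Sym2 (Fin k)) := Nat.pow_le_pow_left hW2 _
      _ ≤ (2 ^ (L + R + R * L)) ^ (k ^ 2) := Nat.pow_le_pow_right (by positivity) hsym
  have hk2 : k ≤ 2 ^ k := Nat.lt_two_pow_self.le
  calc k * Fintype.card (Dat k L R) ≤ 2 ^ k * 2 ^ ((L + R + R * L) * k ^ 2) :=
        Nat.mul_le_mul hk2 hD
    _ = 2 ^ (k + (L + R + R * L) * k ^ 2) := by rw [pow_add]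
    _ ≤ 2 ^ (4 * R ^ 2 * k ^ 3) := by
        refine Nat.pow_le_pow_right (by norm_num) ?_
        have hLR : L ≤ R * k := by
          rw [hL, hR]
          nlinarith
        have hR1 : 1 ≤ R := by omega
        have h4 : L + R + R * L ≤ 3 * R ^ 2 * k := by
          have h5 : R * L ≤ R * (R * k) := Nat.mul_le_mul_left _ hLR
          have h6 : R ≤ R ^ 2 * k := by nlinarith [Nat.mul_le_mul hR1 hk]
          have h7 : R * k ≤ R ^ 2 * k := by nlinarith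
          nlinarith
        have h8 : (L + R + R * L) * k ^ 2 ≤ 3 * R ^ 2 * k * k ^ 2 := Nat.mul_le_mul_right _ h4
        have h9 : k ≤ R ^ 2 * k ^ 3 := by
          have : k ≤ k ^ 3 := Nat.le_self_pow (by norm_num) k
          nlinarith [Nat.one_le_pow 2 R hR1]
        nlinarith

theorem second_exp (s k R : ℕ) (hs : 1 ≤ s) (hk : 1 ≤ k) (hRpos : 0 < R)
    (hC : (200 * s * 16 ^ s * R ^ 3) * k ^ 5 ≤ R ^ k) :
    2 * k + 4 * R ^ 2 * k ^ 3 * R ^ (4 * k) + 2 ≤ 2 * s * R ^ (5 * s * k) := by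
  have hb : ∃ b, R ^ (4 * k) = b := ⟨_, rfl⟩
  obtain ⟨b, hb⟩ := hb
  have hb1 : 1 ≤ b := hb ▸ Nat.one_le_pow _ _ hRpos
  have h4 : 4 * R ^ 2 * k ^ 3 * b ≤ 4 * (R ^ 3 * k ^ 5 * b) := by
    have h41 : R ^ 2 * k ^ 3 ≤ R ^ 3 * k ^ 5 :=
      Nat.mul_le_mul (Nat.pow_le_pow_right hRpos (by norm_num))
        (Nat.pow_le_pow_right hk (by norm_num))
    calc 4 * R ^ 2 * k ^ 3 * b = 4 * (R ^ 2 * k ^ 3 * b) := by ring
      _ ≤ _ := Nat.mul_le_mul_left _ (Nat.mul_le_mul_right b h41)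
  have h5 : k ≤ R ^ 3 * k ^ 5 * b := by
    have h6 : k ≤ k ^ 5 := Nat.le_self_pow (by norm_num) k
    have h7 : 1 ≤ R ^ 3 * b := Nat.succ_le_of_lt (by positivity)
    calc k ≤ k ^ 5 := h6
      _ = k ^ 5 * 1 := (mul_one _).symm
      _ ≤ k ^ 5 * (R ^ 3 * b) := Nat.mul_le_mul_left _ h7
      _ = R ^ 3 * k ^ 5 * b := by ring
  have h10 : 200 * (R ^ 3 * k ^ 5 * b) ≤ R ^ (5 * k) := by
    have h11 : 1 ≤ s * 16 ^ s := Nat.succ_le_of_lt (by positivity)
    calc 200 * (R ^ 3 * k ^ 5 * b) = 1 * (200 * R ^ 3 * k ^ 5 * b) := by ring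
      _ ≤ (s * 16 ^ s) * (200 * R ^ 3 * k ^ 5 * b) := Nat.mul_le_mul_right _ h11
      _ = ((200 * s * 16 ^ s * R ^ 3) * k ^ 5) * b := by ring
      _ ≤ R ^ k * b := Nat.mul_le_mul_right _ hC
      _ = R ^ (5 * k) := by
          rw [← hb, ← pow_add]
          congr 1
          ring
  have h11 : R ^ (5 * k) ≤ R ^ (5 * s * k) := by
    apply Nat.pow_le_pow_right hRpos
    have : 5 * k * 1 ≤ 5 * k * s := Nat.mul_le_mul_left _ hs
    calc 5 * k = 5 * k * 1 := (mul_one _).symm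
      _ ≤ 5 * k * s := this
      _ = 5 * s * k := by ring
  have h12 : R ^ (5 * s * k) ≤ 2 * s * R ^ (5 * s * k) := by
    have : 1 ≤ 2 * s := by omega
    calc R ^ (5 * s * k) = 1 * R ^ (5 * s * k) := (one_mul _).symm
      _ ≤ _ := Nat.mul_le_mul_right _ this
  rw [hb]
  have h13 : 4 * R ^ 2 * k ^ 3 * b ≤ 4 * (R ^ 3 * k ^ 5 * b) := h4
  generalize R ^ 3 * k ^ 5 * b = T at h5 h10 h13
  generalize 4 * R ^ 2 * k ^ 3 * b = U at h13 ⊢
  generalize 2 * s * R ^ (5 * s * k) = V at h12 ⊢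
  omega

theorem main (s r k : ℕ) (hs : 1 ≤ s) (hr : 1 ≤ r)
    (hr2 : 16 * s * 16 ^ s * (1 + 5 * s * Real.log ((2 * r + 1 : ℕ) : ℝ)) ≤ (r : ℝ))
    (hk9 : 2 * 9 ^ r ≤ k) (hks : 16 * s ≤ k)
    (hC : (200 * s * 16 ^ s * (2 * r + 1) ^ 3) * k ^ 5 ≤ (2 * r + 1) ^ k) :
    ∃ n₀ b m : ℕ, ∃ δ : ℝ, 2 * 9 ^ r ≤ k ∧ 4 * s ≤ k ∧ k ≤ n₀ ∧ 2 * s ∣ n₀ ∧ 1 ≤ b ∧ 0 < δ ∧
      (k * b) ^ s ≤ k * n₀ ∧
      Real.exp (-(r * (1 / 16 ^ s) * (k / (4 * s)) / 4)) ≤ δ / 2 ∧
      Real.exp (-(m * ((1 / 16 ^ s) / (4 * k * ((2 * r + 1 : ℕ) : ℝ) ^ (3 * k))) / 2)) ≤ δ ∧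
      (k : ℝ) * (n₀ : ℝ) ^ b *
          ((k : ℝ) * (Fintype.card (Dat k (2 * r * k) (2 * r + 1)) : ℝ)) ^ m * δ ^ b +
        (k : ℝ) ^ 2 * (Fintype.card (Dat k (2 * r * k) (2 * r + 1)) : ℝ) ^ b * 2 ^ n₀ *
          (1 / 16 ^ s : ℝ) ^ (n₀ / (2 * s)) < 1 := by
  have hk : 1 ≤ k := by omega
  have hcard := card_bound k r hr hk
  generalize Fintype.card (Dat k (2 * r * k) (2 * r + 1)) = D at hcard ⊢
  generalize hR : 2 * r + 1 = R at *
  have hR3 : 3 ≤ R := by omega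
  have hRpos : 0 < R := by omega
  have hkR : k ≤ R ^ k := by
    calc k ≤ k ^ 5 := Nat.le_self_pow (by norm_num) k
      _ = 1 * k ^ 5 := (one_mul _).symm
      _ ≤ (200 * s * 16 ^ s * R ^ 3) * k ^ 5 := by
          refine Nat.mul_le_mul_right _ ?_
          have : 0 < 200 * s * 16 ^ s * R ^ 3 := by positivity
          omega
      _ ≤ R ^ k := hC
  set n₀ : ℕ := 2 * s * R ^ (5 * s * k) with hn₀
  set b : ℕ := R ^ (4 * k) with hb
  have hn₀pos : 0 < n₀ := by rw [hn₀]; positivity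
  have hRn₀ : R ^ (5 * s * k) ≤ n₀ := by
    rw [hn₀]
    have : 1 ≤ 2 * s := by omega
    have h1 : 0 < R ^ (5 * s * k) := by positivity
    nlinarith
  have hn₀R : (0 : ℝ) < n₀ := by exact_mod_cast hn₀pos
  set Lg : ℝ := Real.log (4 * n₀) with hLg
  set m : ℕ := ⌈8 * k * 16 ^ s * (R : ℝ) ^ (3 * k) * Lg⌉₊ with hm
  have hs0 : (0 : ℝ) < s := by exact_mod_cast hs
  have hs1 : (1 : ℝ) ≤ s := by exact_mod_cast hs
  have hk0 : (0 : ℝ) < k := by exact_mod_cast hk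
  have hk1 : (1 : ℝ) ≤ k := by exact_mod_cast hk
  have hR0 : (0 : ℝ) < R := by exact_mod_cast hRpos
  have hR1 : (1 : ℝ) ≤ R := by exact_mod_cast hRpos
  have hksR : (16 : ℝ) * s ≤ k := by exact_mod_cast hks
  have hlogR0 : 0 ≤ Real.log (R : ℝ) := Real.log_nonneg hR1
  have hlogR : Real.log (R : ℝ) ≤ R := by
    have := Real.log_le_sub_one_of_pos hR0
    linarith
  have hlog : ∀ c : ℝ, 0 < c → c ≤ 8 →
      Real.log (c * n₀) ≤ k * (1 + 5 * s * Real.log R) := by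
    intro c hc hc8
    have h1 : c * (n₀ : ℝ) = (c * (2 * s)) * (R : ℝ) ^ (5 * s * k) := by
      rw [hn₀]
      push_cast
      ring
    rw [h1, Real.log_mul (by positivity) (by positivity), Real.log_pow]
    have h2 := Real.log_le_sub_one_of_pos (show (0 : ℝ) < c * (2 * s) by positivity)
    push_cast
    nlinarith
  have hLg0 : 0 ≤ Lg := by
    rw [hLg]
    apply Real.log_nonneg
    have : (1 : ℝ) ≤ n₀ := by exact_mod_cast hn₀pos
    linarith
  have hLgle : Lg ≤ 6 * s * k * R := by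
    have h1 := hlog 4 (by norm_num) (by norm_num)
    rw [← hLg] at h1
    have h2 : k * (1 + 5 * s * Real.log R) ≤ k * (1 + 5 * s * R) := by
      apply mul_le_mul_of_nonneg_left _ hk0.le
      nlinarith
    have h3 : (k : ℝ) * (1 + 5 * s * R) ≤ 6 * s * k * R := by
      have : (1 : ℝ) ≤ s * R := by nlinarith
      nlinarith
    linarith
  refine ⟨n₀, b, m, 1 / (4 * n₀), hk9, by omega, ?_, ?_, ?_, by positivity, ?_, ?_, ?_, ?_⟩
  · -- k ≤ n₀
    calc k ≤ R ^ k := hkR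
      _ ≤ R ^ (5 * s * k) := by
          apply Nat.pow_le_pow_right hRpos
          nlinarith
      _ ≤ n₀ := hRn₀
  · exact ⟨R ^ (5 * s * k), rfl⟩
  · exact Nat.one_le_pow _ _ hRpos
  · calc (k * b) ^ s ≤ (R ^ k * R ^ (4 * k)) ^ s :=
          Nat.pow_le_pow_left (Nat.mul_le_mul_right _ hkR) s
      _ = R ^ (5 * s * k) := by
          rw [← pow_add, ← pow_mul]
          congr 1
          ring
      _ ≤ n₀ := hRn₀
      _ ≤ k * n₀ := by nlinarith
  · -- (6)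
    have h1 := hlog 8 (by norm_num) le_rfl
    have h2 : (k : ℝ) * (1 + 5 * s * Real.log R) ≤ r * (1 / 16 ^ s) * (k / (4 * s)) / 4 := by
      have h3 : r * (1 / 16 ^ s) * (k / (4 * s)) / 4 = (k : ℝ) * (r / (16 * s * 16 ^ s)) := by
        field_simp
        ring
      rw [h3]
      apply mul_le_mul_of_nonneg_left _ hk0.le
      rw [le_div_iff₀ (by positivity)]
      linarith
    have h4 : (1 : ℝ) / (4 * n₀) / 2 = Real.exp (-Real.log (8 * n₀)) := by
      rw [Real.exp_neg, Real.exp_log (by positivity)]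
      field_simp
      ring
    rw [h4]
    apply Real.exp_le_exp.2
    linarith
  · -- (7)
    have h4 : (1 : ℝ) / (4 * n₀) = Real.exp (-Lg) := by
      rw [Real.exp_neg, hLg, Real.exp_log (by positivity)]
      field_simp
    rw [h4]
    apply Real.exp_le_exp.2
    have h5 : 8 * k * 16 ^ s * (R : ℝ) ^ (3 * k) * Lg ≤ m := Nat.le_ceil _
    have h6 : (m : ℝ) * (1 / 16 ^ s / (4 * k * (R : ℝ) ^ (3 * k))) / 2 =
        m / (8 * k * 16 ^ s * (R : ℝ) ^ (3 * k)) := by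
      field_simp
      ring
    rw [h6]
    have h7 : Lg ≤ m / (8 * k * 16 ^ s * (R : ℝ) ^ (3 * k)) := by
      rw [le_div_iff₀ (by positivity)]
      linarith
    linarith
  · -- (8)
    have hmR : (m : ℝ) ≤ 49 * s * 16 ^ s * k ^ 2 * R * (R : ℝ) ^ (3 * k) := by
      have h1 : (m : ℝ) < 8 * k * 16 ^ s * (R : ℝ) ^ (3 * k) * Lg + 1 :=
        Nat.ceil_lt_add_one (by positivity)
      have h2 : 8 * k * 16 ^ s * (R : ℝ) ^ (3 * k) * Lg ≤
          8 * k * 16 ^ s * (R : ℝ) ^ (3 * k) * (6 * s * k * R) :=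
        mul_le_mul_of_nonneg_left hLgle (by positivity)
      have h3 : (1 : ℝ) ≤ s * 16 ^ s * k ^ 2 * R * (R : ℝ) ^ (3 * k) := by
        have : (1 : ℕ) ≤ s * 16 ^ s * k ^ 2 * R * R ^ (3 * k) :=
          Nat.succ_le_of_lt (by positivity)
        exact_mod_cast this
      nlinarith
    have hmN : m ≤ 49 * s * 16 ^ s * k ^ 2 * R * R ^ (3 * k) := by exact_mod_cast hmR
    have hk2 : k ≤ 2 ^ k := Nat.lt_two_pow_self.le
    have hfirst : (k : ℝ) * (n₀ : ℝ) ^ b * ((k : ℝ) * (D : ℝ)) ^ m * (1 / (4 * n₀)) ^ b ≤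
        1 / 4 := by
      have h1 : (k : ℝ) * (n₀ : ℝ) ^ b * ((k : ℝ) * (D : ℝ)) ^ m * (1 / (4 * n₀)) ^ b =
          ((k * (k * D) ^ m : ℕ) : ℝ) / ((4 ^ b : ℕ) : ℝ) := by
        push_cast
        rw [div_pow, one_pow, mul_pow (4 : ℝ)]
        field_simp
      rw [h1, div_le_div_iff₀ (by positivity) (by norm_num), one_mul]
      have h2 : k * (k * D) ^ m * 4 ≤ 4 ^ b := by
        have h3 : (k * D) ^ m ≤ 2 ^ (4 * R ^ 2 * k ^ 3 * m) := by
          rw [pow_mul]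
          exact Nat.pow_le_pow_left hcard m
        calc k * (k * D) ^ m * 4 ≤ 2 ^ k * 2 ^ (4 * R ^ 2 * k ^ 3 * m) * 2 ^ 2 :=
              Nat.mul_le_mul (Nat.mul_le_mul hk2 h3) (by norm_num)
          _ = 2 ^ (k + 4 * R ^ 2 * k ^ 3 * m + 2) := by rw [← pow_add, ← pow_add]
          _ ≤ 2 ^ (2 * b) := by
              refine Nat.pow_le_pow_right (by norm_num) ?_
              have h4 : 4 * R ^ 2 * k ^ 3 * m ≤ 196 * (s * 16 ^ s * R ^ 3 * k ^ 5 * R ^ (3 * k)) := by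
                calc 4 * R ^ 2 * k ^ 3 * m ≤
                    4 * R ^ 2 * k ^ 3 * (49 * s * 16 ^ s * k ^ 2 * R * R ^ (3 * k)) :=
                      Nat.mul_le_mul_left _ hmN
                  _ = 196 * (s * 16 ^ s * R ^ 3 * k ^ 5 * R ^ (3 * k)) := by ring
              have h5 : k + 2 ≤ 3 * (s * 16 ^ s * R ^ 3 * k ^ 5 * R ^ (3 * k)) := by
                have h6 : k ≤ k ^ 5 := Nat.le_self_pow (by norm_num) k
                have h7 : 1 ≤ s * 16 ^ s * R ^ 3 * R ^ (3 * k) := Nat.succ_le_of_lt (by positivity)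
                have h8 : k ^ 5 * 1 ≤ k ^ 5 * (s * 16 ^ s * R ^ 3 * R ^ (3 * k)) :=
                  Nat.mul_le_mul_left _ h7
                have h9 : k ^ 5 * (s * 16 ^ s * R ^ 3 * R ^ (3 * k)) =
                    s * 16 ^ s * R ^ 3 * k ^ 5 * R ^ (3 * k) := by ring
                omega
              have h10 : 200 * (s * 16 ^ s * R ^ 3 * k ^ 5 * R ^ (3 * k)) ≤ b := by
                calc 200 * (s * 16 ^ s * R ^ 3 * k ^ 5 * R ^ (3 * k)) =
                    ((200 * s * 16 ^ s * R ^ 3) * k ^ 5) * R ^ (3 * k) := by ring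
                  _ ≤ R ^ k * R ^ (3 * k) := Nat.mul_le_mul_right _ hC
                  _ = b := by
                      rw [hb, ← pow_add]
                      congr 1
                      ring
              omega
          _ = 4 ^ b := by
              rw [pow_mul]
              norm_num
      exact_mod_cast h2
    have hsecond : (k : ℝ) ^ 2 * (D : ℝ) ^ b * 2 ^ n₀ * (1 / 16 ^ s : ℝ) ^ (n₀ / (2 * s)) ≤
        1 / 4 := by
      have hdiv : n₀ / (2 * s) = R ^ (5 * s * k) := by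
        rw [hn₀]
        exact Nat.mul_div_cancel_left _ (by omega)
      have h0 : (1 / 16 ^ s : ℝ) ^ (n₀ / (2 * s)) = 1 / (2 ^ n₀ * 2 ^ n₀) := by
        rw [hdiv, div_pow, one_pow, ← pow_mul, ← pow_add]
        congr 1
        have : (16 : ℝ) = 2 ^ 4 := by norm_num
        rw [this, ← pow_mul]
        congr 1
        rw [hn₀]
        ring
      have h1 : (k : ℝ) ^ 2 * (D : ℝ) ^ b * 2 ^ n₀ * (1 / 16 ^ s : ℝ) ^ (n₀ / (2 * s)) =
          ((k ^ 2 * D ^ b : ℕ) : ℝ) / ((2 ^ n₀ : ℕ) : ℝ) := by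
        rw [h0]
        push_cast
        field_simp
      rw [h1, div_le_div_iff₀ (by positivity) (by norm_num), one_mul]
      have h2 : k ^ 2 * D ^ b * 4 ≤ 2 ^ n₀ := by
        have h3 : D ^ b ≤ 2 ^ (4 * R ^ 2 * k ^ 3 * b) := by
          rw [pow_mul]
          refine Nat.pow_le_pow_left ?_ b
          calc D = 1 * D := (one_mul _).symm
            _ ≤ k * D := Nat.mul_le_mul_right _ hk
            _ ≤ _ := hcard
        have h3' : k ^ 2 ≤ 2 ^ (2 * k) := by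
          rw [mul_comm 2 k, pow_mul]
          exact Nat.pow_le_pow_left hk2 2
        calc k ^ 2 * D ^ b * 4 ≤ 2 ^ (2 * k) * 2 ^ (4 * R ^ 2 * k ^ 3 * b) * 2 ^ 2 :=
              Nat.mul_le_mul (Nat.mul_le_mul h3' h3) (by norm_num)
          _ = 2 ^ (2 * k + 4 * R ^ 2 * k ^ 3 * b + 2) := by rw [← pow_add, ← pow_add]
          _ ≤ 2 ^ n₀ := by
              refine Nat.pow_le_pow_right (by norm_num) ?_
              exact second_exp s k R hs hk hRpos hC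
      exact_mod_cast h2
    linarith

end NUM

theorem pf_NUM : T_NUM := by
  intro s hs
  obtain ⟨r, hr, hr2⟩ := NUM.exists_r s hs
  obtain ⟨k₀, hk₀⟩ := NUM.ev (200 * s * 16 ^ s * (2 * r + 1) ^ 3) (2 * r + 1) (by omega)
  refine ⟨r, hr, k₀ + 2 * 9 ^ r + 16 * s, fun k hk => ?_⟩
  exact NUM.main s r k hs hr hr2 (by omega) (by omega) (hk₀ k (by omega))

end Pool.Agent.H64.EP
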