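import Pool.Agent.H64.EP.Main
import Pool.Agent.H64.EP.Num
import Pool.Agent.H64.EP.Fin
import Pool.Agent.H58.EP.BES
import Pool.Agent.H58.EP.K1
import Pool.Agent.H58.EP.K2
import Pool.Agent.H12.EP.K3
import Pool.Agent.H12.EP.HOL
import Pool.Agent.H59.EP.TF
import Pool.Agent.H14.EP.CNT
import Pool.Agent.H14.EP.COV
import Pool.Agent.H56.EP.MAC
import Pool.Agent.H51.EP.GRE
import Pool.Agent.H50.EP.PAIR
import Pool.Agent.H48.EP.EXF
import Pool.Agent.H33.EP.GI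
import Pool.Agent.H33.EP.KER
import Pool.Agent.H33.EP.TAIL
import Pool.Agent.H91.EP.HEA
import Pool.Agent.H91.EP.HEB

set_option autoImplicit false

namespace Pool.Agent.H64.EP

theorem t_main (hKK : T_KK) (hUB : T_UB) : T_MAIN :=
  have hGI : T_GI := Pool.Agent.H33.EP.GI.pf_GI Pool.Agent.H50.EP.PAIR.pf_PAIR
  have hK3 : T_K3 := Pool.Agent.H12.EP.K3.pf_K3 hGI Pool.Agent.H56.EP.MAC.pf_MAC
  have hK1 : T_K1 := pf_K1 pf_BES
  have hHEA : T_HEA := Pool.Agent.H91.EP.HEA.pf_HEA hK1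
  have hHEB : T_HEB := Pool.Agent.H91.EP.HEB.pf_HEB pf_K2 hK3 Pool.Agent.H12.EP.HOL.pf_HOL
  have hKER : T_KER := Pool.Agent.H33.EP.KER.pf_KER Pool.Agent.H14.EP.CNT.pf_CNT
  have hCOV : T_COV := Pool.Agent.H14.EP.COV.pf_COV hGI Pool.Agent.H33.EP.TAIL.pf_TAIL hKER
    hHEA hHEB hKK Pool.Agent.H51.EP.pf_GRE
  pf_MAIN Pool.Agent.H59.EP.TF.pf_TF hCOV (Pool.Agent.H48.EP.EXF.pf_EXF hUB) pf_NUM

end Pool.Agent.H64.EP
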