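import Pool.Agent.H64.EP.Targets

set_option autoImplicit false

open Finset
open scoped Classical

namespace Pool.Agent.H64.EP

namespace MAIN

/-- the core: a good sample has no large pair without edges -/
theorem core (hC : T_COV) (s r k n₀ b m : ℕ) (δ : ℝ) (hs : 1 ≤ s) (hr : 1 ≤ r)
    (hk9 : 2 * 9 ^ r ≤ k) (hk4 : 4 * s ≤ k) (hn₀ : k ≤ n₀) (hdvd : 2 * s ∣ n₀) (hδ : 0 < δ)
    (hexp1 : Real.exp (-(r * (1 / 16 ^ s) * (k / (4 * s)) / 4)) ≤ δ / 2)
    (hexp2 : Real.exp (-(m * ((1 / 16 ^ s) / (4 * k * ((2 * r + 1 : ℕ) : ℝ) ^ (3 * k))) / 2)) ≤ δ)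
    (f : Fin k → Fin n₀ → Dat k (2 * r * k) (2 * r + 1))
    (h1 : ∀ (j : Fin k) (B : Fin b → Fin n₀)
        (Y : Fin m → Fin k × Dat k (2 * r * k) (2 * r + 1)), Function.Injective B →
        (((univ : Finset (Dat k (2 * r * k) (2 * r + 1))).filter
          (fun z => ∀ q, ¬ adj (Y q) (j, z))).card : ℝ) ≤
          δ * (Fintype.card (Dat k (2 * r * k) (2 * r + 1)) : ℝ) →
        ∃ t q, adj (Y q) (j, f j (B t)))
    (h2 : ∀ (i j : Fin k) (z : Fin b → Dat k (2 * r * k) (2 * r + 1)) (A : Finset (Fin n₀)),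
        A.card = n₀ / (2 * s) →
        (((univ : Finset (Dat k (2 * r * k) (2 * r + 1))).filter
          (fun x => ∀ t, ¬ adj (i, x) (j, z t))).card : ℝ) ≤
          (1 / 16 ^ s) * (Fintype.card (Dat k (2 * r * k) (2 * r + 1)) : ℝ) →
        ∃ p ∈ A, ∃ t, adj (i, f i p) (j, z t))
    (A B : Finset (Fin k × Fin n₀)) (hA : ((k * n₀ : ℕ) : ℝ) / s ≤ A.card)
    (hB : k * b ≤ B.card) :
    ∃ u ∈ A, ∃ v ∈ B, adj (u.1, f u.1 u.2) (v.1, f v.1 v.2) := by
  by_contra hno
  push Not at hno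
  have hk1 : 1 ≤ k := by omega
  have hkpos : 0 < k := hk1
  have hn₀pos : 0 < n₀ := by omega
  have : Nonempty (Fin k) := ⟨⟨0, hkpos⟩⟩
  -- pigeonhole
  obtain ⟨j, -, hj⟩ : ∃ j ∈ (univ : Finset (Fin k)), b ≤ (B.filter (fun v => v.1 = j)).card := by
    apply Finset.exists_le_card_fiber_of_mul_le_card_of_maps_to (fun _ _ => mem_univ _)
      univ_nonempty
    simpa using hB
  set Bj : Finset (Fin n₀) := (B.filter (fun v => v.1 = j)).image Prod.snd with hBj
  have hBjcard : b ≤ Bj.card := by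
    rw [hBj, card_image_of_injOn]
    · exact hj
    · rintro ⟨v1, v2⟩ hv ⟨w1, w2⟩ hw h
      simp only [coe_filter, Set.mem_ofPred_eq] at hv hw
      simp only at h
      rw [Prod.mk.injEq]
      exact ⟨by rw [hv.2, hw.2], h⟩
  obtain ⟨T, hTsub, hTcard⟩ := exists_subset_card_eq hBjcard
  set Bf : Fin b → Fin n₀ := fun t => T.orderEmbOfFin hTcard t with hBf
  have hBfinj : Function.Injective Bf := (T.orderEmbOfFin hTcard).injective
  have hBfmem : ∀ t, ((j, Bf t) : Fin k × Fin n₀) ∈ B := by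
    intro t
    have h := hTsub (T.orderEmbOfFin_mem hTcard t)
    rw [hBj, mem_image] at h
    obtain ⟨v, hv, hv2⟩ := h
    rw [mem_filter] at hv
    have : v = (j, Bf t) := by
      apply Prod.ext
      · exact hv.2
      · exact hv2
    rw [← this]
    exact hv.1
  set z : Fin b → Dat k (2 * r * k) (2 * r + 1) := fun t => f j (Bf t) with hz
  set X : Fin k → Finset (Dat k (2 * r * k) (2 * r + 1)) :=
    fun i => univ.filter (fun x => ∀ t, ¬ adj (i, x) (j, z t)) with hX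
  set a : ℕ := n₀ / (2 * s) with ha
  have hn₀a : n₀ = 2 * s * a := by rw [ha, Nat.mul_div_cancel' hdvd]
  set Ai : Fin k → Finset (Fin n₀) := fun i => (A.filter (fun u => u.1 = i)).image Prod.snd with hAi
  have hAicard : ∀ i, (Ai i).card = (A.filter (fun u => u.1 = i)).card := by
    intro i
    rw [hAi]
    simp only
    rw [card_image_of_injOn]
    rintro ⟨v1, v2⟩ hv ⟨w1, w2⟩ hw h
    simp only [coe_filter, Set.mem_ofPred_eq] at hv hw
    simp only at h
    rw [Prod.mk.injEq]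
    exact ⟨by rw [hv.2, hw.2], h⟩
  have hAimem : ∀ i p, p ∈ Ai i → ((i, p) : Fin k × Fin n₀) ∈ A := by
    intro i p hp
    rw [hAi] at hp
    simp only [mem_image, mem_filter] at hp
    obtain ⟨v, ⟨hv, hv1⟩, hv2⟩ := hp
    have : v = (i, p) := Prod.ext hv1 hv2
    rw [← this]
    exact hv
  set Γ : Finset (Fin k) := univ.filter (fun i => i ≠ j ∧ a ≤ (Ai i).card) with hΓ
  have hXc : ∀ i ∈ Γ, (1 / 16 ^ s : ℝ) *
      (Fintype.card (Dat k (2 * r * k) (2 * r + 1)) : ℝ) ≤ ((X i).card : ℝ) := by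
    intro i hi
    rw [hΓ, mem_filter] at hi
    by_contra hlt
    push Not at hlt
    obtain ⟨A', hA'sub, hA'card⟩ := exists_subset_card_eq hi.2.2
    obtain ⟨p, hp, t, hadj⟩ := h2 i j z A' hA'card hlt.le
    exact hno (i, p) (hAimem i p (hA'sub hp)) (j, Bf t) (hBfmem t) hadj
  -- size of Γ
  have hsum : A.card = ∑ i, (Ai i).card := by
    rw [card_eq_sum_card_fiberwise (f := Prod.fst) (t := univ) (fun _ _ => by simp)]
    exact sum_congr rfl fun i _ => (hAicard i).symm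
  have hAile : ∀ i, (Ai i).card ≤ n₀ := by
    intro i
    calc (Ai i).card ≤ Fintype.card (Fin n₀) := card_le_univ _
      _ = n₀ := Fintype.card_fin n₀
  have hΓcard : ((k : ℝ) / (4 * s)) ≤ (Γ.card : ℝ) := by
    have hbound : ∀ i, (Ai i).card ≤ (if i ∈ Γ then n₀ else 0) + (if i = j then n₀ else 0) + a := by
      intro i
      by_cases hi : i ∈ Γ
      · rw [if_pos hi]
        exact le_add_right (le_add_right (hAile i))
      · by_cases hij : i = j
        · rw [if_pos hij]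
          exact le_add_right (le_add_left (hAile i))
        · rw [if_neg hi, if_neg hij]
          rw [hΓ, mem_filter] at hi
          have hnot : ¬ (a ≤ (Ai i).card) := by
            intro h
            exact hi ⟨mem_univ _, hij, h⟩
          rw [zero_add, zero_add]
          exact (not_le.1 hnot).le
    have h3 : A.card ≤ Γ.card * n₀ + n₀ + k * a := by
      rw [hsum]
      calc ∑ i, (Ai i).card ≤ ∑ i : Fin k, ((if i ∈ Γ then n₀ else 0) +
            (if i = j then n₀ else 0) + a) := sum_le_sum fun i _ => hbound i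
        _ = Γ.card * n₀ + n₀ + k * a := by
            rw [sum_add_distrib, sum_add_distrib, sum_ite_mem, univ_inter, sum_const,
              smul_eq_mul, sum_ite_eq', if_pos (mem_univ _), sum_const, card_univ,
              Fintype.card_fin, smul_eq_mul]
    have hspos : (0 : ℝ) < s := by exact_mod_cast hs
    have h4 : ((k : ℝ) * n₀) / s ≤ (Γ.card : ℝ) * n₀ + n₀ + k * a := by
      have h5 : (A.card : ℝ) ≤ ((Γ.card * n₀ + n₀ + k * a : ℕ) : ℝ) := by exact_mod_cast h3
      push_cast at h5 hA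
      linarith
    have han : (a : ℝ) = n₀ / (2 * s) := by
      rw [eq_div_iff (by positivity)]
      rw [hn₀a]
      push_cast
      ring
    rw [han] at h4
    have hn₀r : (0 : ℝ) < n₀ := by exact_mod_cast hn₀pos
    have h6 : (k : ℝ) / s ≤ Γ.card + 1 + k / (2 * s) := by
      have h7 : ((k : ℝ) / s) * n₀ ≤ (Γ.card + 1 + k / (2 * s)) * n₀ := by
        calc ((k : ℝ) / s) * n₀ = ((k : ℝ) * n₀) / s := by ring
          _ ≤ (Γ.card : ℝ) * n₀ + n₀ + k * (n₀ / (2 * s)) := h4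
          _ = (Γ.card + 1 + k / (2 * s)) * n₀ := by ring
      exact le_of_mul_le_mul_right h7 hn₀r
    have h8 : (1 : ℝ) ≤ k / (4 * s) := by
      rw [le_div_iff₀ (by positivity)]
      have : ((4 * s : ℕ) : ℝ) ≤ (k : ℝ) := by exact_mod_cast hk4
      push_cast at this
      linarith
    have h9 : (k : ℝ) / s = 4 * (k / (4 * s)) := by
      field_simp
    have h10 : (k : ℝ) / (2 * s) = 2 * (k / (4 * s)) := by
      field_simp
      norm_num
    rw [h9, h10] at h6
    linarith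
  have hΓne : Γ.Nonempty := by
    rw [← card_pos]
    have h8 : (1 : ℝ) ≤ k / (4 * s) := by
      have hspos : (0 : ℝ) < s := by exact_mod_cast hs
      rw [le_div_iff₀ (by positivity)]
      have : ((4 * s : ℕ) : ℝ) ≤ (k : ℝ) := by exact_mod_cast hk4
      push_cast at this
      linarith
    have : (1 : ℝ) ≤ Γ.card := h8.trans hΓcard
    exact_mod_cast this
  have hjΓ : j ∉ Γ := by
    rw [hΓ, mem_filter]
    rintro ⟨-, h, -⟩
    exact h rfl
  have hc0 : (0 : ℝ) < 1 / 16 ^ s := by positivity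
  have hc1 : (1 / 16 ^ s : ℝ) ≤ 1 := by
    rw [div_le_one (by positivity)]
    exact one_le_pow₀ (by norm_num)
  have hexp1' : Real.exp (-(r * (1 / 16 ^ s) * (Γ.card : ℝ) / 4)) ≤ δ / 2 := by
    refine le_trans (Real.exp_le_exp.2 ?_) hexp1
    have : (r : ℝ) * (1 / 16 ^ s) * (k / (4 * s)) ≤ r * (1 / 16 ^ s) * (Γ.card : ℝ) :=
      mul_le_mul_of_nonneg_left hΓcard (by positivity)
    linarith
  obtain ⟨Y, hY1, hY2⟩ := hC k r m (1 / 16 ^ s) δ hr hk9 hc0 hc1 hδ j Γ X hΓne hjΓ hXc hexp1' hexp2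
  obtain ⟨t, q, hadj⟩ := h1 j Bf Y hBfinj hY2
  have hq := (hY1 q).2
  rw [hX] at hq
  simp only [mem_filter] at hq
  exact hq.2 t hadj

end MAIN

theorem pf_MAIN (hTF : T_TF) (hC : T_COV) (hE : T_EXF) (hN : T_NUM) : T_MAIN := by
  intro s hs N
  obtain ⟨r, hr, k₀, hk₀⟩ := hN s hs
  obtain ⟨n₀, b, m, δ, hk9, hk4, hn₀, hdvd, hb, hδ, hpow, hexp1, hexp2, hsum⟩ :=
    hk₀ (max k₀ (max N 2)) (le_max_left _ _)
  set k := max k₀ (max N 2) with hk
  have hkN : N ≤ k := (le_max_left _ _).trans (le_max_right _ _)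
  have hk2 : 2 ≤ k := (le_max_right _ _).trans (le_max_right _ _)
  have hL : 1 ≤ 2 * r * k := by
    have : 0 < 2 * r * k := by positivity
    omega
  obtain ⟨f, h1, h2⟩ := hE k (2 * r * k) (2 * r + 1) n₀ b m (n₀ / (2 * s)) (1 / 16 ^ s) δ
    (by positivity) hδ.le hL (by omega) hsum
  have hcore := MAIN.core hC s r k n₀ b m δ hs hr hk9 hk4 hn₀ hdvd hδ hexp1 hexp2 f h1 h2
  let e : Fin (k * n₀) ≃ Fin k × Fin n₀ := finProdFinEquiv.symm
  let D := Dat k (2 * r * k) (2 * r + 1)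
  let v : Fin (k * n₀) → Fin k × D := fun u => ((e u).1, f (e u).1 (e u).2)
  let G : SimpleGraph (Fin (k * n₀)) :=
    { Adj := fun u w => adj (v u) (v w)
      symm := ⟨fun u w h => (hTF k _ _ (v u) (v w) (v u)).1 h⟩
      loopless := ⟨fun u h => h.1 rfl⟩ }
  have hkn : k ≤ k * n₀ := Nat.le_mul_of_pos_right k (by omega)
  refine ⟨k * n₀, by omega, by omega, G, ?_, ?_⟩
  · intro a b c hab hbc hac
    exact (hTF k _ _ (v a) (v b) (v c)).2 hab hbc hac
  · intro A B hA hB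
    have hBk : k * b ≤ B.card := by
      have h3 : ((k * b : ℕ) : ℝ) ≤ ((k * n₀ : ℕ) : ℝ) ^ ((1 : ℝ) / s) := by
        have hspos : (0 : ℝ) < s := by exact_mod_cast hs
        have h4 : (((k * b : ℕ) : ℝ)) ^ s ≤ ((k * n₀ : ℕ) : ℝ) := by exact_mod_cast hpow
        calc ((k * b : ℕ) : ℝ) = ((((k * b : ℕ) : ℝ)) ^ s) ^ ((1 : ℝ) / s) := by
              rw [one_div, ← Real.rpow_natCast, ← Real.rpow_mul (by positivity),
                mul_inv_cancel₀ hspos.ne', Real.rpow_one]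
          _ ≤ ((k * n₀ : ℕ) : ℝ) ^ ((1 : ℝ) / s) :=
              Real.rpow_le_rpow (by positivity) h4 (by positivity)
      have h5 : ((k * b : ℕ) : ℝ) ≤ (B.card : ℝ) := h3.trans hB
      exact_mod_cast h5
    obtain ⟨u, hu, w, hw, huw⟩ := hcore (A.map e.toEmbedding) (B.map e.toEmbedding)
      (by rw [card_map]; exact hA) (by rw [card_map]; exact hBk)
    rw [mem_map] at hu hw
    obtain ⟨a, ha, rfl⟩ := hu
    obtain ⟨c, hc, rfl⟩ := hw
    exact ⟨a, ha, c, hc, huw⟩

end Pool.Agent.H64.EP
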