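import Mathlib

/-!
MP_e01ba1_co: triangle-free graphs without linear-by-polynomial empty pairs.
Definitions and targets (pure Mathlib).
-/

set_option autoImplicit false

open Finset
open scoped Classical

namespace Pool.Agent.H64.EP

noncomputable section

/-! ### averages and the mixed exponential inequality -/

/-- uniform average over a finite type -/
def avg {α : Type} [Fintype α] (f : α → ℝ) : ℝ := (∑ a, f a) / (Fintype.card α : ℝ)

/-- a family of Markov kernels on `α` -/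
def IsKer {ι α : Type} [Fintype α] (K : ι → α → α → ℝ) : Prop :=
  (∀ i z x, 0 ≤ K i z x) ∧ ∀ i z, ∑ x, K i z x = 1

/-- the mixed exponential inequality with exponent `r` for a family of kernels -/
def HI {ι α : Type} [Fintype ι] [Fintype α] (r : ℕ) (K : ι → α → α → ℝ) : Prop :=
  ∀ φ : ι → α → ℝ, (∀ i x, -1 ≤ φ i x ∧ φ i x ≤ 0) →
    avg (fun z => Real.exp (r * ∑ i, ∑ x, K i z x * φ i x)) ≤
      (∏ i, avg (fun x => Real.exp (φ i x))) ^ r

/-- tensor product of two families -/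
def T_PAIR : Prop :=
  ∀ (ι α β : Type) [Fintype ι] [Fintype α] [Fintype β] [Nonempty α] [Nonempty β] (r : ℕ)
    (K : ι → α → α → ℝ) (K' : ι → β → β → ℝ), 1 ≤ r → IsKer K → IsKer K' → HI r K → HI r K' →
    HI r (fun i (z x : α × β) => K i z.1 x.1 * K' i z.2 x.2)

/-- tensor product over a finite index type -/
def T_GI : Prop :=
  ∀ (ι E α : Type) [Fintype ι] [Fintype E] [DecidableEq E] [Fintype α] [Nonempty α] (r : ℕ)
    (K : E → ι → α → α → ℝ), 1 ≤ r → (∀ e, IsKer (K e)) → (∀ e, HI r (K e)) →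
    HI r (fun i (z x : E → α) => ∏ e, K e i (z e) (x e))

/-- the tail bound which follows from the mixed inequality -/
def T_TAIL : Prop :=
  ∀ (ι α : Type) [Fintype ι] [Fintype α] [Nonempty α] (r : ℕ) (K : ι → α → α → ℝ) (c : ℝ)
    (Γ : Finset ι) (X : ι → Finset α), IsKer K → HI r K → 0 ≤ c →
    (∀ i ∈ Γ, c * (Fintype.card α : ℝ) ≤ ((X i).card : ℝ)) →
    (((univ : Finset α).filter (fun z => ∀ i ∈ Γ, ∑ x ∈ X i, K i z x ≤ c / 4)).card : ℝ) ≤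
      Real.exp (-(r * c * (Γ.card : ℝ) / 4)) * (Fintype.card α : ℝ)

/-! ### single coordinates -/

/-- Maclaurin's inequality in exponential form -/
def T_MAC : Prop :=
  ∀ (q : ℕ) (ψ : Fin (q + 1) → ℝ),
    avg (fun s => Real.exp (∑ s', if s' = s then 0 else ψ s')) ≤
      (avg (fun s => Real.exp (ψ s))) ^ q

/-- random label contained in a given transversal -/
def T_K2 : Prop :=
  ∀ (L R : ℕ), 1 ≤ L → 1 ≤ R → ∀ Ψ : Fin L × Fin R → ℝ,
    avg (fun σ : Fin L → Fin R => Real.exp (∑ t, Ψ (t, σ t))) ≤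
      (avg (fun a => Real.exp (Ψ a))) ^ L

/-- Hölder with equal exponents -/
def T_HOL : Prop :=
  ∀ (α : Type) [Fintype α] [Nonempty α] (k : ℕ), 1 ≤ k → ∀ ψ : Fin k → α → ℝ,
    (avg (fun a => Real.exp ((∑ i, ψ i a) / k))) ^ k ≤ ∏ i, avg (fun a => Real.exp (ψ i a))

/-- Bessel's inequality for the conditional expectations on one letter -/
def T_BES : Prop :=
  ∀ (L R : ℕ), 1 ≤ L → 1 ≤ R → ∀ ψ : (Fin L → Fin R) → ℝ,
    avg (fun a : Fin L × Fin R =>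
        (avg (fun σ : Fin L → Fin R => if σ a.1 = a.2 then (R : ℝ) * ψ σ else 0) - avg ψ) ^ 2) ≤
      avg (fun σ => (ψ σ - avg ψ) ^ 2) / L

/-- random transversal containing a given label -/
def T_K1 : Prop :=
  ∀ (L R q : ℕ), 1 ≤ R → 1 ≤ q → 2 * q * 3 ^ q ≤ L → ∀ ψ : (Fin L → Fin R) → ℝ,
    (∀ x, -1 ≤ ψ x ∧ ψ x ≤ 0) →
    avg (fun a : Fin L × Fin R => Real.exp (q *
        avg (fun σ : Fin L → Fin R => if σ a.1 = a.2 then (R : ℝ) * ψ σ else 0))) ≤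
      (avg (fun σ => Real.exp (ψ σ))) ^ q

/-- random transversal disjoint from a given transversal -/
def T_K3 : Prop :=
  ∀ (L q : ℕ), 1 ≤ q → ∀ ψ : (Fin L → Fin (q + 1)) → ℝ, (∀ x, -1 ≤ ψ x ∧ ψ x ≤ 0) →
    avg (fun σ : Fin L → Fin (q + 1) => Real.exp (q *
        ((∑ σ' : Fin L → Fin (q + 1), if (∀ t, σ' t ≠ σ t) then ψ σ' else 0) / (q : ℝ) ^ L))) ≤
      (avg (fun σ => Real.exp (ψ σ))) ^ q

/-! ### the graph -/

/-- labels -/
abbrev Lab (L R : ℕ) := Fin L × Fin R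

/-- transversals -/
abbrev St (L R : ℕ) := Fin L → Fin R

/-- one coordinate of a datum: a label and a transversal -/
abbrev W (L R : ℕ) := Lab L R × St L R

/-- data of a vertex: for every pair of types a label and a transversal -/
abbrev Dat (k L R : ℕ) := Sym2 (Fin k) → W L R

/-- the relation at coordinate `e` between a vertex of type `i` and a vertex of type `j` -/
def rel {k L R : ℕ} (i j : Fin k) (e : Sym2 (Fin k)) (x z : W L R) : Prop :=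
  (i ∈ e → j ∉ e → x.2 z.1.1 = z.1.2) ∧ (i ∉ e → j ∈ e → z.2 x.1.1 = x.1.2) ∧
    (i ∈ e → j ∈ e → ∀ t, x.2 t ≠ z.2 t)

/-- adjacency: a vertex is a type with a datum -/
def adj {k L R : ℕ} (p q : Fin k × Dat k L R) : Prop :=
  p.1 ≠ q.1 ∧ ∀ e, rel p.1 q.1 e (p.2 e) (q.2 e)

/-- adjacency is symmetric and triangle-free -/
def T_TF : Prop :=
  ∀ (k L R : ℕ) (p q w : Fin k × Dat k L R), (adj p q → adj q p) ∧
    (adj p q → adj q w → adj p w → False)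

/-- number of the `x` with `rel i j e x z` (`i ≠ j`), for every `z` -/
def cnt {k : ℕ} (L R : ℕ) (i j : Fin k) (e : Sym2 (Fin k)) : ℝ :=
  if i ∈ e then (if j ∈ e then (L : ℝ) * R * ((R : ℝ) - 1) ^ L else (L : ℝ) * R ^ L)
  else (if j ∈ e then (L : ℝ) * R ^ L else (L : ℝ) * R * R ^ L)

/-- `cnt` counts -/
def T_CNT : Prop :=
  ∀ (k L R : ℕ), 1 ≤ L → 1 ≤ R → ∀ (i j : Fin k) (e : Sym2 (Fin k)) (z : W L R), i ≠ j →
    (((univ : Finset (W L R)).filter (fun x => rel i j e x z)).card : ℝ) = cnt L R i j e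

/-- the kernel at coordinate `e` from type `j` to type `i` -/
def ker {k L R : ℕ} (j : Fin k) (e : Sym2 (Fin k)) (i : Fin k) (z x : W L R) : ℝ :=
  if i = j then 1 / ((L : ℝ) * R * R ^ L)
  else (if rel i j e x z then 1 else 0) / cnt L R i j e

/-- the kernels are Markov kernels -/
def T_KER : Prop :=
  ∀ (k L R : ℕ), 1 ≤ L → 2 ≤ R → ∀ (j : Fin k) (e : Sym2 (Fin k)),
    IsKer (fun i (z x : W L R) => ker j e i z x)

/-- the mixed inequality for a coordinate `e` which does not contain `j` -/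
def T_HEA : Prop :=
  ∀ (k L R r : ℕ), 1 ≤ r → 2 ≤ R → 4 * r * 9 ^ r ≤ L → ∀ (j : Fin k) (e : Sym2 (Fin k)), j ∉ e →
    HI r (fun i (z x : W L R) => ker j e i z x)

/-- the mixed inequality for a coordinate `e` which contains `j` -/
def T_HEB : Prop :=
  ∀ (k r : ℕ), 1 ≤ r → 1 ≤ k → ∀ (j : Fin k) (e : Sym2 (Fin k)), j ∈ e →
    HI r (fun i (z x : W (2 * r * k) (2 * r + 1)) => ker j e i z x)

/-- product of the kernels: adjacency divided by the degree; lower bound for the degree -/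
def T_KK : Prop :=
  ∀ (k r : ℕ), 1 ≤ r → 1 ≤ k → ∀ (i j : Fin k), i ≠ j →
    (∀ z x : Dat k (2 * r * k) (2 * r + 1),
      ∏ e, ker j e i (z e) (x e) =
        (if adj (i, x) (j, z) then 1 else 0) / ∏ e, cnt (2 * r * k) (2 * r + 1) i j e) ∧
    0 < ∏ e, cnt (2 * r * k) (2 * r + 1) i j e ∧
    (Fintype.card (Dat k (2 * r * k) (2 * r + 1)) : ℝ) / ((2 * r + 1 : ℕ) : ℝ) ^ (3 * k) ≤
      ∏ e, cnt (2 * r * k) (2 * r + 1) i j e

/-! ### covering and existence -/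

/-- greedy covering -/
def T_GRE : Prop :=
  ∀ (P Z : Type) [Fintype P] [Fintype Z] [Nonempty Z] (A : P → Z → Prop) (S : Finset P)
    (η δ : ℝ) (m : ℕ), S.Nonempty → 0 < η → 0 < δ → Real.exp (-(m * η / 2)) ≤ δ →
    (((univ : Finset Z).filter
      (fun z => ((S.filter (fun p => A p z)).card : ℝ) < η * (Fintype.card P : ℝ))).card : ℝ) ≤
      δ / 2 * (Fintype.card Z : ℝ) →
    ∃ X : Fin m → P, (∀ q, X q ∈ S) ∧
      (((univ : Finset Z).filter (fun z => ∀ q, ¬ A (X q) z)).card : ℝ) ≤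
        δ * (Fintype.card Z : ℝ)

/-- few vertices dominate almost all data of type `j` -/
def T_COV : Prop :=
  ∀ (k r m : ℕ) (c δ : ℝ), 1 ≤ r → 2 * 9 ^ r ≤ k → 0 < c → c ≤ 1 → 0 < δ →
    ∀ (j : Fin k) (Γ : Finset (Fin k))
      (X : Fin k → Finset (Dat k (2 * r * k) (2 * r + 1))), Γ.Nonempty → j ∉ Γ →
    (∀ i ∈ Γ, c * (Fintype.card (Dat k (2 * r * k) (2 * r + 1)) : ℝ) ≤ ((X i).card : ℝ)) →
    Real.exp (-(r * c * (Γ.card : ℝ) / 4)) ≤ δ / 2 →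
    Real.exp (-(m * (c / (4 * k * ((2 * r + 1 : ℕ) : ℝ) ^ (3 * k))) / 2)) ≤ δ →
    ∃ Y : Fin m → Fin k × Dat k (2 * r * k) (2 * r + 1),
      (∀ q, (Y q).1 ∈ Γ ∧ (Y q).2 ∈ X (Y q).1) ∧
      (((univ : Finset (Dat k (2 * r * k) (2 * r + 1))).filter
        (fun z => ∀ q, ¬ adj (Y q) (j, z))).card : ℝ) ≤
        δ * (Fintype.card (Dat k (2 * r * k) (2 * r + 1)) : ℝ)

/-- abstract union bound -/
def T_UB : Prop :=
  ∀ (I D J : Type) [Fintype I] [Fintype D] [Nonempty D] [Fintype J] (S : J → I → Finset D),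
    ∑ p, ∏ t, (((S p t).card : ℝ) / (Fintype.card D : ℝ)) < 1 →
    ∃ f : I → D, ∀ p, ∃ t, f t ∉ S p t

/-- existence of a good sample -/
def T_EXF : Prop :=
  ∀ (k L R n₀ b m a : ℕ) (c δ : ℝ), 0 ≤ c → 0 ≤ δ → 1 ≤ L → 1 ≤ R →
    (k : ℝ) * (n₀ : ℝ) ^ b * ((k : ℝ) * (Fintype.card (Dat k L R) : ℝ)) ^ m * δ ^ b +
      (k : ℝ) ^ 2 * (Fintype.card (Dat k L R) : ℝ) ^ b * 2 ^ n₀ * c ^ a < 1 →
    ∃ f : Fin k → Fin n₀ → Dat k L R,
      (∀ (j : Fin k) (B : Fin b → Fin n₀) (Y : Fin m → Fin k × Dat k L R),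
        Function.Injective B →
        (((univ : Finset (Dat k L R)).filter (fun z => ∀ q, ¬ adj (Y q) (j, z))).card : ℝ) ≤
          δ * (Fintype.card (Dat k L R) : ℝ) →
        ∃ t q, adj (Y q) (j, f j (B t))) ∧
      (∀ (i j : Fin k) (z : Fin b → Dat k L R) (A : Finset (Fin n₀)), A.card = a →
        (((univ : Finset (Dat k L R)).filter (fun x => ∀ t, ¬ adj (i, x) (j, z t))).card : ℝ) ≤
          c * (Fintype.card (Dat k L R) : ℝ) →
        ∃ p ∈ A, ∃ t, adj (i, f i p) (j, z t))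

/-- choice of the parameters -/
def T_NUM : Prop :=
  ∀ s : ℕ, 1 ≤ s → ∃ r : ℕ, 1 ≤ r ∧ ∃ k₀ : ℕ, ∀ k : ℕ, k₀ ≤ k →
    ∃ n₀ b m : ℕ, ∃ δ : ℝ, 2 * 9 ^ r ≤ k ∧ 4 * s ≤ k ∧ k ≤ n₀ ∧ 2 * s ∣ n₀ ∧ 1 ≤ b ∧ 0 < δ ∧
      (k * b) ^ s ≤ k * n₀ ∧
      Real.exp (-(r * (1 / 16 ^ s) * (k / (4 * s)) / 4)) ≤ δ / 2 ∧
      Real.exp (-(m * ((1 / 16 ^ s) / (4 * k * ((2 * r + 1 : ℕ) : ℝ) ^ (3 * k))) / 2)) ≤ δ ∧
      (k : ℝ) * (n₀ : ℝ) ^ b *
          ((k : ℝ) * (Fintype.card (Dat k (2 * r * k) (2 * r + 1)) : ℝ)) ^ m * δ ^ b +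
        (k : ℝ) ^ 2 * (Fintype.card (Dat k (2 * r * k) (2 * r + 1)) : ℝ) ^ b * 2 ^ n₀ *
          (1 / 16 ^ s : ℝ) ^ (n₀ / (2 * s)) < 1

/-- the graph -/
def T_MAIN : Prop :=
  ∀ s : ℕ, 1 ≤ s → ∀ N : ℕ, ∃ n : ℕ, N ≤ n ∧ 2 ≤ n ∧ ∃ G : SimpleGraph (Fin n),
    (∀ a b c, G.Adj a b → G.Adj b c → G.Adj a c → False) ∧
    ∀ A B : Finset (Fin n), (n : ℝ) / s ≤ A.card → (n : ℝ) ^ ((1 : ℝ) / s) ≤ B.card →
      ∃ a ∈ A, ∃ b ∈ B, G.Adj a b

end

end Pool.Agent.H64.EP
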