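import Pool.Agent.H64.EP.Targets

set_option autoImplicit false

open Finset
open scoped Classical

namespace Pool.Agent.H64.EP

theorem pf_UB : T_UB := by
  intro I D J _ _ _ _ S h
  by_contra hno
  push Not at hno
  have h1 : (univ : Finset (I → D)) ⊆ univ.biUnion (fun p : J => Fintype.piFinset (S p)) := by
    intro f _
    obtain ⟨p, hp⟩ := hno f
    rw [mem_biUnion]
    exact ⟨p, mem_univ _, Fintype.mem_piFinset.2 hp⟩
  have h2 := (card_le_card h1).trans card_biUnion_le
  rw [card_univ, Fintype.card_fun] at h2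
  have hD : (0 : ℝ) < (Fintype.card D : ℝ) := by exact_mod_cast Fintype.card_pos
  have h3 : ((Fintype.card D : ℝ)) ^ Fintype.card I ≤
      ∑ p, ∏ t, ((S p t).card : ℝ) := by
    have : ((Fintype.card D ^ Fintype.card I : ℕ) : ℝ) ≤
        ((∑ p : J, (Fintype.piFinset (S p)).card : ℕ) : ℝ) := by exact_mod_cast h2
    push_cast at this
    refine this.trans (le_of_eq (sum_congr rfl fun p _ => ?_))
    rw [Fintype.card_piFinset]
    push_cast
    rfl
  have h4 : ∑ p, ∏ t, (((S p t).card : ℝ) / (Fintype.card D : ℝ)) =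
      (∑ p, ∏ t, ((S p t).card : ℝ)) / (Fintype.card D : ℝ) ^ Fintype.card I := by
    rw [sum_div]
    refine sum_congr rfl fun p _ => ?_
    rw [prod_div_distrib, prod_const, card_univ]
  rw [h4, div_lt_one (by positivity)] at h
  linarith

end Pool.Agent.H64.EP
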